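import Mathlib

namespace Pool.Agent.H.MP_80f2b6_co
open PowerSeries Finset

inductive Tr (α : Type) where
  | nil : Tr α
  | node (w : α) (C S : Tr α) : Tr α

inductive Op where
  | a | b | c | d
  | dn (o : Op)
  | nx (o : Op)
  deriving DecidableEq

def Tr.e {α : Type} : Tr α → Bool
  | .nil => true
  | .node _ _ _ => false

abbrev Fo := Tr Unit

def opsAB : Fo → List Op
  | .nil => []
  | .node _ K S => .a :: .b :: ((opsAB K).map .dn ++ (opsAB S).map .nx)

def opsCD : Fo → List Op
  | .nil => []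
  | .node _ K S => if S.e then .c :: .d :: (opsCD K).map .dn else (opsCD S).map .nx

def res : Op → Fo → Fo
  | _, .nil => .nil
  | .a, .node _ K S => .node () K S
  | .b, .node _ K S => .node () (.node () .nil K) S
  | .c, .node _ K _ => .node () .nil K
  | .d, .node _ K _ => K
  | .dn o, .node _ K S => .node () (res o K) S
  | .nx o, .node _ K S => .node () K (res o S)

def gn : Op → Fo → (ℕ → ℚ) → ℕ → ℚ
  | _, .nil, g => g
  | .a, .node _ K S, g => if K.e && S.e then fun _ => g 1 else g
  | .b, .node _ K S, g => if K.e && S.e then fun k => g (k + 1) else g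
  | .c, .node _ K S, g => if K.e && S.e then fun k => g (k + 1) else g
  | .d, .node _ K S, g => if K.e && S.e then fun _ => g 1 else g
  | .dn o, .node _ K S, g => if S.e then gn o K g else g
  | .nx o, .node _ _ S, g => gn o S g

noncomputable def G : ℚ⟦X⟧ := PowerSeries.mk 1
noncomputable def Psi (P : ℚ⟦X⟧) : ℚ⟦X⟧ := X * G * (P + X * d⁄dX ℚ P)
noncomputable def del (P : ℚ⟦X⟧) : ℚ⟦X⟧ := G * (X * d⁄dX ℚ P)
noncomputable def Pg (g : ℕ → ℚ) : ℚ⟦X⟧ := X * PowerSeries.mk fun k => g (k + 1)

noncomputable def phi : Fo → (ℕ → ℚ) → ℚ⟦X⟧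
  | .nil, g => C (g 0)
  | .node _ K S, g =>
    if S.e then (if K.e then Pg g else Psi (phi K g)) else Psi (phi K fun _ => 1) * phi S g

lemma hG : G = 1 + X * G := by
  have := mk_one_mul_one_sub_eq_one ℚ
  unfold G
  linear_combination this

lemma hG' : d⁄dX ℚ G = G * G := by
  have h := congrArg (d⁄dX ℚ) hG
  simp only [map_add, Derivation.leibniz, derivative_X, smul_eq_mul, Derivation.map_one_eq_zero]
    at h
  have h1 := hG
  linear_combination G * h - (d⁄dX ℚ G) * h1

lemma Psi_add (P Q : ℚ⟦X⟧) : Psi (P + Q) = Psi P + Psi Q := by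
  simp only [Psi, map_add]; ring

lemma Psi_C (c : ℚ) (P : ℚ⟦X⟧) : Psi (C c * P) = C c * Psi P := by
  simp only [Psi, Derivation.leibniz, derivative_C, smul_eq_mul]; ring

lemma Psi_one : Psi 1 = X * G := by simp [Psi]

lemma Psi_sum (l : List ℚ⟦X⟧) : Psi l.sum = (l.map Psi).sum := by
  induction l with
  | nil => simp [Psi]
  | cons x l ih => simp [Psi_add, ih]

lemma Psi_X (Q : ℚ⟦X⟧) : Psi (X * Q) = X * (X * G * (X * Q) + X * Q + Psi Q) := by
  simp only [Psi, Derivation.leibniz, derivative_X, smul_eq_mul]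
  linear_combination X * X * Q * hG

lemma del_mul (P Q : ℚ⟦X⟧) : del (P * Q) = del P * Q + P * del Q := by
  simp only [del, Derivation.leibniz, smul_eq_mul]; ring

lemma del_Psi (P : ℚ⟦X⟧) : del (Psi P) = Psi P + Psi (X * G * P) + Psi (del P) := by
  simp only [Psi, del, Derivation.leibniz, derivative_X, smul_eq_mul, map_add, hG']
  linear_combination (X * G * P + X * X * G * G * P + X * X * G * d⁄dX ℚ P) * hG

lemma Pg_const (c : ℚ) : Pg (fun _ => c) = C c * (X * G) := by
  have : (PowerSeries.mk fun _ => c : ℚ⟦X⟧) = C c * G := by ext n; simp [G]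
  rw [Pg, this]; ring

lemma Pg_succ (g : ℕ → ℚ) : Pg g = X * (Pg (fun k => g (k + 1)) + C (g 1)) := by
  unfold Pg
  congr 1
  ext n
  cases n with
  | zero => simp
  | succ n => simp [coeff_succ_X_mul, coeff_C]

lemma del_Pg (g : ℕ → ℚ) :
    del (Pg g) = C (g 1) * (X * G) + Psi (Pg fun k => g (k + 1)) := by
  rw [Pg_succ g]
  simp only [Psi, del, Derivation.leibniz, derivative_X, smul_eq_mul, map_add, derivative_C]
  ring

lemma phi_const (F : Fo) (c : ℚ) : phi F (fun _ => c) = C c * phi F fun _ => 1 := by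
  induction F with
  | nil => simp [phi]
  | node w K S ihK ihS =>
    simp only [phi]
    split_ifs
    · simp [Pg_const]
    · rw [ihK, Psi_C]
    · rw [ihS]; ring

lemma e_iff {α : Type} (T : Tr α) : T.e = true ↔ T = .nil := by cases T <;> simp [Tr.e]

lemma phi_node_nil (K : Fo) (g : ℕ → ℚ) (h : K.e = false ∨ ∃ c, g = fun _ => c) :
    phi (.node () K .nil) g = Psi (phi K g) := by
  cases K with
  | node _ _ _ => simp [phi, Tr.e]
  | nil =>
    rcases h with h | ⟨c, rfl⟩
    · simp [Tr.e] at h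
    · have := Psi_C c 1
      rw [mul_one, Psi_one] at this
      simp [phi, Tr.e, Pg_const, this]

lemma phi_node (K S : Fo) (g : ℕ → ℚ) (h : S.e = false ∨ ∃ c, g = fun _ => c) :
    phi (.node () K S) g = Psi (phi K fun _ => 1) * phi S g := by
  cases S with
  | node _ _ _ => simp [phi, Tr.e]
  | nil =>
    rcases h with h | ⟨c, rfl⟩
    · simp [Tr.e] at h
    · rw [phi_node_nil _ _ (Or.inr ⟨c, rfl⟩), phi_const, Psi_C]
      simp [phi, mul_comm]

lemma gn_const (o : Op) (F : Fo) (c : ℚ) : gn o F (fun _ => c) = fun _ => c := by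
  induction o generalizing F with
  | dn o ih => cases F <;> simp [gn, ih]
  | nx o ih => cases F <;> simp [gn, ih]
  | _ => cases F <;> simp [gn]

lemma res_AB (F : Fo) (o : Op) (h : o ∈ opsAB F) : (res o F).e = false := by
  cases F with
  | nil => simp [opsAB] at h
  | node w K S =>
    simp only [opsAB, List.mem_cons, List.mem_append, List.mem_map] at h
    rcases h with rfl | rfl | ⟨o, -, rfl⟩ | ⟨o, -, rfl⟩ <;> rfl

lemma res_CD (F : Fo) (o : Op) (g : ℕ → ℚ) (h : o ∈ opsCD F) :
    (res o F).e = false ∨ ∃ c, gn o F g = fun _ => c := by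
  cases F with
  | nil => simp [opsCD] at h
  | node w K S =>
    simp only [opsCD] at h
    split_ifs at h with hS
    · simp only [List.mem_cons, List.mem_map] at h
      rcases h with rfl | rfl | ⟨o, -, rfl⟩
      · exact Or.inl rfl
      · cases K with
        | nil => exact Or.inr ⟨g 1, by simp only [gn, hS]; rfl⟩
        | node _ _ _ => exact Or.inl rfl
      · exact Or.inl rfl
    · obtain ⟨o, -, rfl⟩ := List.mem_map.1 h
      exact Or.inl rfl

noncomputable def sm (l : List Op) (F : Fo) (g : ℕ → ℚ) : ℚ⟦X⟧ :=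
  (l.map fun o => phi (res o F) (gn o F g)).sum

lemma sm_dn (l : List Op) (K : Fo) (g : ℕ → ℚ)
    (h : ∀ o ∈ l, (res o K).e = false ∨ ∃ c, gn o K g = fun _ => c) :
    sm (l.map .dn) (.node () K .nil) g = Psi (sm l K g) := by
  unfold sm
  rw [Psi_sum, List.map_map, List.map_map]
  congr 1
  refine List.map_congr_left fun o ho => ?_
  simp only [Function.comp, res, gn, Tr.e, if_true]
  exact phi_node_nil _ _ (h o ho)

lemma sm_dn' (l : List Op) (K S : Fo) (g : ℕ → ℚ) (hS : S.e = false) :
    sm (l.map .dn) (.node () K S) g = Psi (sm l K fun _ => 1) * phi S g := by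
  unfold sm
  rw [Psi_sum, List.map_map, List.map_map, ← List.sum_map_mul_right]
  congr 1
  refine List.map_congr_left fun o ho => ?_
  simp [res, gn, hS, gn_const, phi]

lemma sm_nx (l : List Op) (K S : Fo) (g : ℕ → ℚ)
    (h : ∀ o ∈ l, (res o S).e = false ∨ ∃ c, gn o S g = fun _ => c) :
    sm (l.map .nx) (.node () K S) g = Psi (phi K fun _ => 1) * sm l S g := by
  unfold sm
  rw [List.map_map, ← List.sum_map_mul_left]
  congr 1
  refine List.map_congr_left fun o ho => ?_
  simp only [Function.comp, res, gn]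
  exact phi_node _ _ _ (h o ho)

lemma sm_cons (o : Op) (l : List Op) (F : Fo) (g : ℕ → ℚ) :
    sm (o :: l) F g = phi (res o F) (gn o F g) + sm l F g := by simp [sm]

lemma sm_append (l l' : List Op) (F : Fo) (g : ℕ → ℚ) :
    sm (l ++ l') F g = sm l F g + sm l' F g := by simp [sm]

lemma sm_AB (F : Fo) (g : ℕ → ℚ) : sm (opsAB F) F g = del (phi F g) := by
  induction F generalizing g with
  | nil => simp [sm, opsAB, phi, del]
  | node w K S ihK ihS =>
    rw [opsAB, sm_cons, sm_cons, sm_append]
    cases S with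
    | nil =>
      rw [sm_dn _ _ _ fun o ho => Or.inl (res_AB _ _ ho), ihK]
      cases K with
      | nil =>
        have e0 : del (C (g 0)) = 0 := by simp [del]
        have e1 : Psi 0 = 0 := by simp [Psi]
        simp [res, gn, phi, Tr.e, opsAB, sm, del_Pg, Pg_const, e0, e1]
      | node u K1 K2 =>
        have e : phi (.node () .nil (.node u K1 K2)) g = X * G * phi (.node u K1 K2) g := by
          rw [phi_node _ _ _ (Or.inl rfl)]; simp [phi, Psi_one]
        have e2 : phi (.node w (.node u K1 K2) .nil) g = Psi (phi (.node u K1 K2) g) :=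
          phi_node_nil _ _ (Or.inl rfl)
        simp only [res, gn, Tr.e, Bool.false_and, Bool.false_eq_true, if_false, opsAB,
          List.map_nil]
        rw [phi_node_nil (.node () .nil _) _ (Or.inl rfl), e, e2, del_Psi]
        simp [sm, add_assoc]
    | node u S1 S2 =>
      rw [sm_dn' _ _ _ _ rfl, sm_nx _ _ _ _ fun o ho => Or.inl (res_AB _ _ ho), ihK, ihS]
      have e : phi (.node () .nil K) (fun _ => 1) = X * G * phi K fun _ => 1 := by
        rw [phi_node _ _ _ (Or.inr ⟨1, rfl⟩)]; simp [phi, Psi_one]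
      have e2 : ∀ K : Fo, phi (.node w K (.node u S1 S2)) g =
          Psi (phi K fun _ => 1) * phi (.node u S1 S2) g := fun K => phi_node _ _ _ (Or.inl rfl)
      simp only [res, gn, Tr.e, Bool.and_false, Bool.false_eq_true, if_false]
      rw [e2, e2, e, del_mul, del_Psi]
      ring

lemma sm_CD (F : Fo) (g : ℕ → ℚ) (h : F.e = false) : X * sm (opsCD F) F g = phi F g := by
  induction F generalizing g with
  | nil => simp [Tr.e] at h
  | node w K S ihK ihS =>
    cases S with
    | nil =>
      have : opsCD (.node w K .nil) = .c :: .d :: (opsCD K).map .dn := by simp [opsCD, Tr.e]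
      rw [this, sm_cons, sm_cons, sm_dn _ _ _ fun o ho => res_CD _ _ _ ho]
      cases K with
      | nil =>
        simp only [res, gn, phi, Tr.e, opsCD, sm, Bool.and_self, if_true, List.map_nil,
          List.sum_nil]
        rw [Pg_succ g]
        simp [Psi]
      | node u K1 K2 =>
        have e : phi (.node () .nil (.node u K1 K2)) g = X * G * phi (.node u K1 K2) g := by
          rw [phi_node _ _ _ (Or.inl rfl)]; simp [phi, Psi_one]
        have e2 : phi (.node w (.node u K1 K2) .nil) g = Psi (phi (.node u K1 K2) g) :=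
          phi_node_nil _ _ (Or.inl rfl)
        simp only [res, gn, Tr.e, Bool.false_and, Bool.false_eq_true, if_false]
        rw [e, e2, ← ihK g rfl, Psi_X]
        ring
    | node u S1 S2 =>
      have : opsCD (.node w K (.node u S1 S2)) = (opsCD (.node u S1 S2)).map .nx := by
        simp [opsCD, Tr.e]
      rw [this, sm_nx _ _ _ _ fun o ho => res_CD _ _ _ ho, phi_node _ _ _ (Or.inl rfl),
        ← ihS g rfl]
      ring

/-- the powered Catalan triangle -/
def cc : ℕ → ℕ → ℕ
  | 0, j => if j = 0 then 1 else 0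
  | _ + 1, 0 => 0
  | n + 1, j + 1 => cc n j + (j + 1) * ∑ i ∈ Ico (j + 1) (n + 1), cc n i

noncomputable def V (n : ℕ) (P : ℚ⟦X⟧) : ℚ := ∑ j ∈ range (n + 1), coeff j P * cc n j

lemma V_add (n : ℕ) (P Q : ℚ⟦X⟧) : V n (P + Q) = V n P + V n Q := by
  simp [V, add_mul, sum_add_distrib]

lemma V_sum (n : ℕ) (l : List ℚ⟦X⟧) : V n l.sum = (l.map (V n)).sum := by
  induction l with
  | nil => simp [V]
  | cons x l ih => simp [V_add, ih]

lemma coeff_del (P : ℚ⟦X⟧) (j : ℕ) :
    coeff j (del P) = ∑ i ∈ range (j + 1), (i : ℚ) * coeff i P := by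
  rw [del, mul_comm, coeff_mul, Nat.sum_antidiagonal_eq_sum_range_succ_mk]
  refine sum_congr rfl fun i _ => ?_
  cases i with
  | zero => simp
  | succ i => simp [coeff_succ_X_mul, coeff_derivative, G, mul_comm]

lemma V_succ (n : ℕ) (Q : ℚ⟦X⟧) : V (n + 1) (X * Q) = V n (del (X * Q)) + V n Q := by
  have h1 : V n (del (X * Q)) = ∑ i ∈ range (n + 1),
      (i : ℚ) * coeff i (X * Q) * ∑ j ∈ Ico i (n + 1), (cc n j : ℚ) := by
    simp only [V, coeff_del, sum_mul, mul_sum]
    rw [range_eq_Ico, sum_Ico_Ico_comm]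
    simp only [← range_eq_Ico]
  have h2 : ∑ i ∈ range (n + 1 + 1),
      (i : ℚ) * coeff i (X * Q) * ∑ j ∈ Ico i (n + 1), (cc n j : ℚ) = V n (del (X * Q)) := by
    rw [sum_range_succ, h1]; simp
  rw [← h2, V, V, sum_range_succ', sum_range_succ' _ (n + 1)]
  simp only [cc, coeff_succ_X_mul]
  push_cast
  simp only [mul_zero, zero_mul, add_zero, ← sum_add_distrib]
  exact sum_congr rfl fun j _ => by ring

lemma V_step (n : ℕ) (F : Fo) (g : ℕ → ℚ) : V (n + 1) (phi F g) =
    ((opsAB F ++ opsCD F).map fun o => V n (phi (res o F) (gn o F g))).sum := by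
  cases F with
  | nil =>
    simp only [phi, opsAB, opsCD, V, List.append_nil, List.map_nil, List.sum_nil]
    rw [sum_range_succ']
    simp [cc, coeff_C]
  | node w K S =>
    have h := V_sum n ((opsAB (.node w K S) ++ opsCD (.node w K S)).map fun o =>
      phi (res o (.node w K S)) (gn o (.node w K S) g))
    rw [List.map_map] at h
    refine Eq.trans ?_ h
    change _ = V n (sm _ _ _)
    rw [sm_append, V_add, sm_AB, ← sm_CD _ g rfl, V_succ]

lemma V_zero (F : Fo) (g : ℕ → ℚ) : V 0 (phi F g) = if F.e then g 0 else 0 := by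
  cases F with
  | nil => simp [V, phi, cc, Tr.e]
  | node w K S => rw [← sm_CD _ g rfl]; simp [V, Tr.e]

end Pool.Agent.H.MP_80f2b6_co
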