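import Pool.Agent.H.MP_80f2b6_co.Alg

namespace Pool.Agent.H.MP_80f2b6_co

abbrev LF := Tr (List ℕ)

def shape : LF → Fo
  | .nil => .nil
  | .node _ K S => .node () (shape K) (shape S)

def flat : LF → List ℕ
  | .nil => []
  | .node w K S => w ++ (flat K ++ flat S)

def NE : LF → Prop
  | .nil => True
  | .node w K S => w ≠ [] ∧ NE K ∧ NE S

def Le (R : List ℕ) (y : ℕ) : Prop := ∀ z ∈ R, z ≤ y

def In (x y : ℕ) : List ℕ → Prop
  | [] => True
  | c :: q => (c < x → Le q y) ∧ In x y q

def Av : List ℕ → List ℕ → Prop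
  | [], _ => True
  | [_], _ => True
  | x :: y :: q, R => (x < y → Le R y ∧ In x y q) ∧ Av (y :: q) R

def Hd : List ℕ → List ℕ → Prop
  | [], _ => True
  | y :: _, R => Le R y

def valid : LF → List ℕ → Prop
  | .nil, _ => True
  | .node w K S, R => Hd w (flat S ++ R) ∧ Av w (flat K ++ (flat S ++ R)) ∧
      valid K (flat S ++ R) ∧ valid S R

def lastw : LF → List ℕ
  | .nil => []
  | .node w K S => if S.e then (if K.e then w else lastw K) else lastw S

open Classical in
noncomputable def rm : List ℕ → ℕ
  | [] => 0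
  | x :: w => rm w + if ∀ y ∈ w, x < y then 1 else 0

def back (v : ℕ) : Op → LF → LF
  | .a, .node p K S => .node (p ++ [v]) K S
  | .b, .node p (.node q _ K) S => .node (p ++ v :: q) K S
  | .c, .node q _ K => .node (v :: q) K .nil
  | .d, K => .node [v] K .nil
  | .dn o, .node w K S => .node w (back v o K) S
  | .nx o, .node w K S => .node w K (back v o S)
  | _, T => T

def fwd (v : ℕ) : LF → Op × LF
  | .nil => (.a, .nil)
  | .node w K S =>
    if v ∈ w then
      (if w.takeWhile (· ≠ v) = [] then
        (if (w.dropWhile (· ≠ v)).tail = [] then (.d, K)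
          else (.c, .node (w.dropWhile (· ≠ v)).tail .nil K))
      else (if (w.dropWhile (· ≠ v)).tail = [] then (.a, .node (w.takeWhile (· ≠ v)) K S)
          else (.b, .node (w.takeWhile (· ≠ v)) (.node (w.dropWhile (· ≠ v)).tail .nil K) S)))
    else if v ∈ flat K then (.dn (fwd v K).1, .node w (fwd v K).2 S)
    else (.nx (fwd v S).1, .node w K (fwd v S).2)

lemma Le_append {A B : List ℕ} {y : ℕ} : Le (A ++ B) y ↔ Le A y ∧ Le B y := by
  simp [Le, or_imp, forall_and]

lemma Le_cons {a : ℕ} {B : List ℕ} {y : ℕ} : Le (a :: B) y ↔ a ≤ y ∧ Le B y := by simp [Le]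

lemma Le_nil {y : ℕ} : Le [] y := by simp [Le]

lemma Le_perm {A B : List ℕ} {v y : ℕ} (h : A.Perm (v :: B)) (hv : v < y) : Le A y ↔ Le B y := by
  simp only [Le, h.mem_iff, List.mem_cons, or_imp, forall_and, forall_eq]
  exact ⟨fun h => h.2, fun h => ⟨hv.le, h⟩⟩

lemma In_of_Le {x y : ℕ} {q : List ℕ} (h : Le q y) : In x y q := by
  induction q with
  | nil => trivial
  | cons c q ih => exact ⟨fun _ => (Le_cons.1 h).2, ih (Le_cons.1 h).2⟩

lemma In_of_lt {x y : ℕ} {q : List ℕ} (h : ∀ z ∈ q, x < z) : In x y q := by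
  induction q with
  | nil => trivial
  | cons c q ih =>
    exact ⟨fun hc => absurd (h c (by simp)) (by omega), ih fun z hz => h z (by simp [hz])⟩

lemma In_split {x y v : ℕ} {p q : List ℕ} (h1 : v < x) (h2 : x < y) :
    In x y (p ++ v :: q) ↔ In x y p ∧ Le q y := by
  induction p with
  | nil => exact ⟨fun h => ⟨trivial, h.1 h1⟩, fun h => ⟨fun _ => h.2, In_of_Le h.2⟩⟩
  | cons c p ih =>
    simp only [List.cons_append, In, ih, Le_append, Le_cons]
    have : v ≤ y := by omega
    tauto

lemma Av_split {v : ℕ} {p q R : List ℕ} (hp : ∀ z ∈ p, v < z) (hq : ∀ z ∈ q, v < z) :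
    Av (p ++ v :: q) R ↔ Av p (q ++ R) ∧ Hd q R ∧ Av q R := by
  induction p with
  | nil =>
    cases q with
    | nil => simp [Av, Hd]
    | cons y q =>
      have h1 := hq y (by simp)
      have h2 : In v y q := In_of_lt fun z hz => hq z (by simp [hz])
      simp [Av, Hd, h1, h2]
  | cons x p ih =>
    have hx := hp x (by simp)
    have ih := ih fun z hz => hp z (by simp [hz])
    cases p with
    | nil =>
      simp only [List.cons_append, List.nil_append, Av] at ih ⊢
      rw [ih]
      have : ¬ x < v := by omega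
      tauto
    | cons y p =>
      simp only [List.cons_append, Av] at ih ⊢
      rw [ih, Le_append]
      by_cases h : x < y
      · rw [In_split hx h]; tauto
      · tauto

lemma Av_congr {w R R' : List ℕ} (h : ∀ y ∈ w, Le R y ↔ Le R' y) : Av w R ↔ Av w R' := by
  induction w with
  | nil => simp [Av]
  | cons x w ih =>
    cases w with
    | nil => simp [Av]
    | cons y q =>
      simp only [Av]
      rw [ih fun z hz => h z (by simp [hz]), h y (by simp)]

lemma Hd_congr {w R R' : List ℕ} (h : ∀ y ∈ w, Le R y ↔ Le R' y) : Hd w R ↔ Hd w R' := by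
  cases w with
  | nil => simp [Hd]
  | cons y q => exact h y (by simp)

lemma valid_congr {T : LF} {R R' : List ℕ} (h : ∀ y ∈ flat T, Le R y ↔ Le R' y) :
    valid T R ↔ valid T R' := by
  induction T generalizing R R' with
  | nil => simp [valid]
  | node w K S ihK ihS =>
    simp only [valid]
    simp only [flat, List.mem_append] at h
    rw [Hd_congr (R' := flat S ++ R') fun y hy => by simp [Le_append, h y (Or.inl hy)],
      Av_congr (R' := flat K ++ (flat S ++ R')) fun y hy => by simp [Le_append, h y (Or.inl hy)],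
      ihK (R' := flat S ++ R') fun y hy => by simp [Le_append, h y (Or.inr (Or.inl hy))],
      ihS fun y hy => h y (Or.inr (Or.inr hy))]

lemma rm_split {v : ℕ} {p q : List ℕ} (hp : ∀ z ∈ p, v < z) (hq : ∀ z ∈ q, v < z) :
    rm (p ++ v :: q) = rm q + 1 := by
  induction p with
  | nil => simp only [List.nil_append, rm]; rw [if_pos hq]
  | cons x p ih =>
    simp only [List.cons_append, rm]
    rw [ih fun z hz => hp z (by simp [hz]), if_neg]
    intro h
    have := h v (by simp)
    have := hp x (by simp)
    omega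

lemma e_nil {α : Type} : (Tr.nil : Tr α).e = true := rfl

lemma shape_e (T : LF) : (shape T).e = T.e := by cases T <;> rfl

lemma shape_nil {T : LF} (h : shape T = .nil) : T = .nil := by
  cases T with
  | nil => rfl
  | node _ _ _ => simp [shape] at h

lemma shape_node {T : LF} {K S : Fo} (h : shape T = .node () K S) :
    ∃ w K' S', T = .node w K' S' ∧ shape K' = K ∧ shape S' = S := by
  cases T with
  | nil => simp [shape] at h
  | node w K' S' =>
    simp only [shape, Tr.node.injEq, true_and] at h
    exact ⟨w, K', S', rfl, h⟩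

lemma tw {v : ℕ} {p : List ℕ} (q : List ℕ) (hp : ∀ z ∈ p, v < z) :
    (p ++ v :: q).takeWhile (· ≠ v) = p ∧ (p ++ v :: q).dropWhile (· ≠ v) = v :: q := by
  induction p with
  | nil => simp
  | cons x p ih =>
    have := hp x (by simp)
    have ih := ih fun z hz => hp z (by simp [hz])
    have hx : x ≠ v := by omega
    simp only [List.cons_append, List.takeWhile_cons, List.dropWhile_cons, ne_eq, hx,
      not_false_eq_true, decide_true, if_true]
    exact ⟨by rw [ih.1], ih.2⟩

def OK (o : Op) (F : Fo) (R : List ℕ) : Prop := o ∈ opsAB F ∨ (R = [] ∧ o ∈ opsCD F)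

lemma res_OK {o : Op} {F : Fo} {R : List ℕ} (h : OK o F R) (g : ℕ → ℚ) :
    (res o F).e = false ∨ ∃ c, gn o F g = fun _ => c := by
  rcases h with h | h
  · exact Or.inl (res_AB _ _ h)
  · exact res_CD _ _ _ h.2

lemma back_spec (v : ℕ) (o : Op) : ∀ (F : Fo) (T : LF) (R : List ℕ) (g : ℕ → ℚ), OK o F R →
    shape T = res o F → NE T → (∀ z ∈ flat T, v < z) →
    shape (back v o T) = F ∧ NE (back v o T) ∧ (flat (back v o T)).Perm (v :: flat T) ∧
      (valid (back v o T) R ↔ valid T R) ∧
      g (rm (lastw (back v o T))) = gn o F g (rm (lastw T)) ∧ fwd v (back v o T) = (o, T) := by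
  induction o with
  | a =>
    rintro (_ | ⟨_, K0, S0⟩) T R g h hs hn hv
    · simp [OK, opsAB, opsCD] at h
    obtain ⟨p, K, S, rfl, rfl, rfl⟩ := shape_node hs
    simp only [flat, List.mem_append] at hv
    have hp : ∀ z ∈ p, v < z := fun z hz => hv z (Or.inl hz)
    have t := tw [] hp
    refine ⟨rfl, ⟨by simp, hn.2⟩, ?_, ?_, ?_, ?_⟩
    · simp only [back, flat, List.append_assoc]; exact List.perm_middle
    · simp only [back, valid]
      rw [Av_split hp (by simp)]
      obtain ⟨x, p', rfl⟩ := List.exists_cons_of_ne_nil hn.1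
      simp [Hd, Av]
    · simp only [back, lastw, gn, shape_e]
      cases K <;> cases S <;> simp [Tr.e, rm_split hp, rm]
    · simp only [back, fwd]
      rw [if_pos (by simp), t.1, t.2]
      simp [hn.1]
  | b =>
    rintro (_ | ⟨_, K0, S0⟩) T R g h hs hn hv
    · simp [OK, opsAB, opsCD] at h
    obtain ⟨p, K1, S, rfl, h1, rfl⟩ := shape_node hs
    obtain ⟨q, K2, K, rfl, h2, rfl⟩ := shape_node h1
    obtain rfl := shape_nil h2
    simp only [flat, List.mem_append] at hv
    have hp : ∀ z ∈ p, v < z := fun z hz => hv z (Or.inl hz)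
    have hq : ∀ z ∈ q, v < z := fun z hz => hv z (Or.inr (Or.inl (Or.inl hz)))
    have t := tw q hp
    refine ⟨rfl, ⟨by simp, hn.2.1.2.2, hn.2.2⟩, ?_, ?_, ?_, ?_⟩
    · simp only [back, flat, List.append_assoc, List.cons_append, List.nil_append]
      exact List.perm_middle
    · simp only [back, valid]
      rw [Av_split hp hq]
      obtain ⟨x, p', rfl⟩ := List.exists_cons_of_ne_nil hn.1
      simp [Hd, flat, and_assoc]
    · simp only [back, lastw, gn, shape_e]
      cases K <;> cases S <;> simp [Tr.e, rm_split hp hq]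
    · simp only [back, fwd]
      rw [if_pos (by simp), t.1, t.2]
      simp [hn.1, hn.2.1.1]
  | c =>
    rintro (_ | ⟨_, K0, S0⟩) T R g h hs hn hv
    · simp [OK, opsAB, opsCD] at h
    obtain ⟨rfl, rfl⟩ : R = [] ∧ S0 = .nil := by
      cases S0 <;> simpa [OK, opsAB, opsCD, Tr.e] using h
    obtain ⟨q, K2, K, rfl, h2, rfl⟩ := shape_node hs
    obtain rfl := shape_nil h2
    simp only [flat, List.mem_append] at hv
    have hq : ∀ z ∈ q, v < z := fun z hz => hv z (Or.inl hz)
    refine ⟨rfl, ⟨by simp, hn.2.2, trivial⟩, ?_, ?_, ?_, ?_⟩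
    · simp [back, flat]
    · simp only [back, valid]
      have := Av_split (p := []) (R := flat K ++ (flat .nil ++ [])) (by simp) hq
      rw [List.nil_append] at this
      rw [this]
      simp [Hd, Av, flat, Le_nil, and_assoc]
    · have := rm_split (p := []) (by simp) hq
      rw [List.nil_append] at this
      simp only [back, lastw, gn, shape_e]
      cases K <;> simp [Tr.e, this]
    · simp [back, fwd, hn.1]
  | d =>
    rintro (_ | ⟨_, K0, S0⟩) T R g h hs hn hv
    · simp [OK, opsAB, opsCD] at h
    obtain ⟨rfl, rfl⟩ : R = [] ∧ S0 = .nil := by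
      cases S0 <;> simpa [OK, opsAB, opsCD, Tr.e] using h
    obtain rfl : shape T = K0 := hs
    have e : back v .d T = .node [v] T .nil := by cases T <;> rfl
    rw [e]
    refine ⟨rfl, ⟨by simp, hn, trivial⟩, ?_, ?_, ?_, ?_⟩
    · simp [flat]
    · simp [valid, Hd, Av, flat, Le_nil]
    · simp only [lastw, gn, shape_e]
      cases T <;> simp [Tr.e, rm]
    · simp [fwd]
  | dn o ih =>
    rintro (_ | ⟨_, K0, S0⟩) T R g h hs hn hv
    · simp [OK, opsAB, opsCD] at h
    obtain ⟨w, K, S, rfl, h1, rfl⟩ := shape_node hs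
    have h' : OK o K0 (flat S ++ R) := by
      cases S with
      | nil => simpa [OK, opsAB, opsCD, Tr.e, shape, flat] using h
      | node _ _ _ => exact Or.inl (by simpa [OK, opsAB, opsCD, Tr.e, shape, flat] using h)
    simp only [flat, List.mem_append] at hv
    have hw : ∀ z ∈ w, v < z := fun z hz => hv z (Or.inl hz)
    obtain ⟨i1, i2, i3, i4, i5, i6⟩ := ih K0 K _ g h' h1 hn.2.1
      fun z hz => hv z (Or.inr (Or.inl hz))
    have hm : v ∈ flat (back v o K) := i3.symm.subset (by simp)
    have he : (back v o K).e = false := by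
      cases hb : back v o K with
      | nil => simp [hb, flat] at hm
      | node _ _ _ => rfl
    refine ⟨by simp [back, shape, i1], ⟨hn.1, i2, hn.2.2⟩, ?_, ?_, ?_, ?_⟩
    · simp only [back, flat]
      exact ((i3.append_right _).append_left _).trans List.perm_middle
    · simp only [back, valid]
      rw [i4, Av_congr (R' := flat K ++ (flat S ++ R)) fun y hy =>
        Le_perm (i3.append_right _) (hw y hy)]
    · simp only [back, lastw, gn, shape_e, he]
      cases S with
      | node _ _ _ => simp [Tr.e]
      | nil =>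
        rcases res_OK h' g with k | ⟨c, k⟩
        · rw [← h1, shape_e] at k
          simp [e_nil, k, i5]
        · simp [e_nil, k, i5]
    · have : v ∉ w := fun h => lt_irrefl _ (hw v h)
      simp [back, fwd, this, hm, i6]
  | nx o ih =>
    rintro (_ | ⟨_, K0, S0⟩) T R g h hs hn hv
    · simp [OK, opsAB, opsCD] at h
    obtain ⟨w, K, S, rfl, rfl, h1⟩ := shape_node hs
    have h' : OK o S0 R := by
      cases S0 <;> simpa [OK, opsAB, opsCD, Tr.e] using h
    simp only [flat, List.mem_append] at hv
    have hw : ∀ z ∈ w, v < z := fun z hz => hv z (Or.inl hz)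
    have hK : ∀ z ∈ flat K, v < z := fun z hz => hv z (Or.inr (Or.inl hz))
    obtain ⟨i1, i2, i3, i4, i5, i6⟩ := ih S0 S _ g h' h1 hn.2.2
      fun z hz => hv z (Or.inr (Or.inr hz))
    have hm : v ∈ flat (back v o S) := i3.symm.subset (by simp)
    have he : (back v o S).e = false := by
      cases hb : back v o S with
      | nil => simp [hb, flat] at hm
      | node _ _ _ => rfl
    refine ⟨by simp [back, shape, i1], ⟨hn.1, hn.2.1, i2⟩, ?_, ?_, ?_, ?_⟩
    · simp only [back, flat, ← List.append_assoc]
      exact (i3.append_left _).trans List.perm_middle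
    · simp only [back, valid]
      rw [i4, Hd_congr (R' := flat S ++ R) fun y hy => Le_perm (i3.append_right _) (hw y hy),
        valid_congr (R' := flat S ++ R) fun y hy => Le_perm (i3.append_right _) (hK y hy),
        Av_congr (R' := flat K ++ (flat S ++ R)) fun y hy =>
          Le_perm (((i3.append_right _).append_left _).trans List.perm_middle) (hw y hy)]
    · simp only [back, lastw, gn, he]
      rcases res_OK h' g with k | ⟨c, k⟩
      · rw [← h1, shape_e] at k
        simp [k, i5]
      · simp [k, i5]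
    · have h2 : v ∉ w := fun h => lt_irrefl _ (hw v h)
      have h3 : v ∉ flat K := fun h => lt_irrefl _ (hK v h)
      simp [back, fwd, h2, h3, i6]

lemma flat_nil {T : LF} (hn : NE T) (h : flat T = []) : T = .nil := by
  cases T with
  | nil => rfl
  | node w K S => simp [flat, hn.1] at h

lemma surj (v : ℕ) (T : LF) : ∀ R : List ℕ, NE T → valid T R → v ∈ flat T →
    (flat T).Nodup → (∀ z ∈ flat T, v ≤ z) → (∀ z ∈ R, v < z) →
    ∃ o T', OK o (shape T) R ∧ shape T' = res o (shape T) ∧ NE T' ∧ (∀ z ∈ flat T', v < z) ∧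
      back v o T' = T := by
  induction T with
  | nil => intro R _ _ h; simp [flat] at h
  | node w K S ihK ihS =>
    intro R hn hval hv hnd hle hR
    have lt : ∀ (A B : List ℕ), flat (.node w K S) = A ++ v :: B → ∀ z ∈ A ++ B, v < z := by
      intro A B e z hz
      rw [e] at hnd hle
      have h1 := (List.nodup_cons.1 (List.nodup_middle.1 hnd)).1
      have h2 := hle z (by simp only [List.mem_append, List.mem_cons] at hz ⊢; tauto)
      exact lt_of_le_of_ne h2 fun e => h1 (e ▸ hz)
    simp only [flat, List.mem_append] at hv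
    rcases hv with hv | hv | hv
    · obtain ⟨p, q, rfl⟩ := List.append_of_mem hv
      have l := lt p (q ++ (flat K ++ flat S)) (by simp [flat])
      by_cases hp : p = []
      · subst hp
        have h0 : flat S ++ R = [] := by
          refine List.eq_nil_iff_forall_not_mem.2 fun z hz => ?_
          have h1 := hval.1 z hz
          rcases List.mem_append.1 hz with hz | hz
          · have := l z (by simp [hz]); omega
          · have := hR z hz; omega
        obtain ⟨h1, rfl⟩ := List.append_eq_nil_iff.1 h0
        obtain rfl := flat_nil hn.2.2 h1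
        by_cases hq : q = []
        · subst hq
          refine ⟨.d, K, Or.inr ⟨rfl, by simp [shape, opsCD, Tr.e]⟩, rfl, hn.2.1,
            fun z hz => l z (by simp [hz]), by cases K <;> rfl⟩
        · exact ⟨.c, .node q .nil K, Or.inr ⟨rfl, by simp [shape, opsCD, Tr.e]⟩, rfl,
            ⟨hq, trivial, hn.2.1⟩, fun z hz => l z (by simpa [flat] using hz), rfl⟩
      · by_cases hq : q = []
        · subst hq
          exact ⟨.a, .node p K S, Or.inl (by simp [shape, opsAB]), rfl, ⟨hp, hn.2⟩,
            fun z hz => l z (by simpa [flat] using hz), rfl⟩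
        · exact ⟨.b, .node p (.node q .nil K) S, Or.inl (by simp [shape, opsAB]), rfl,
            ⟨hp, ⟨hq, trivial, hn.2.1⟩, hn.2.2⟩, fun z hz => l z (by simpa [flat] using hz), rfl⟩
    · obtain ⟨p, q, e⟩ := List.append_of_mem hv
      have l := lt (w ++ p) (q ++ flat S) (by simp [flat, e])
      simp only [flat] at hnd hle
      obtain ⟨o, K', h1, h2, h3, h4, h5⟩ := ihK (flat S ++ R) hn.2.1 hval.2.2.1 hv
        (hnd.of_append_right.of_append_left) (fun z hz => hle z (by simp [hz])) (fun z hz => by
          rcases List.mem_append.1 hz with hz | hz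
          · exact l z (by simp [hz])
          · exact hR z hz)
      refine ⟨.dn o, .node w K' S, ?_, by simp [shape, res, h2], ⟨hn.1, h3, hn.2.2⟩, ?_,
        by simp [back, h5]⟩
      · rcases h1 with h1 | ⟨h0, h1⟩
        · exact Or.inl (by simp [shape, opsAB, h1])
        · obtain ⟨h6, rfl⟩ := List.append_eq_nil_iff.1 h0
          obtain rfl := flat_nil hn.2.2 h6
          exact Or.inr ⟨rfl, by simp [shape, opsCD, Tr.e, h1]⟩
      · intro z hz
        simp only [flat, List.mem_append] at hz
        rcases hz with hz | hz | hz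
        · exact l z (by simp [hz])
        · exact h4 z hz
        · exact l z (by simp [hz])
    · obtain ⟨p, q, e⟩ := List.append_of_mem hv
      have l := lt (w ++ flat K ++ p) q (by simp [flat, e])
      simp only [flat] at hnd hle
      obtain ⟨o, S', h1, h2, h3, h4, h5⟩ := ihS R hn.2.2 hval.2.2.2 hv
        (hnd.of_append_right.of_append_right) (fun z hz => hle z (by simp [hz])) hR
      refine ⟨.nx o, .node w K S', ?_, by simp [shape, res, h2], ⟨hn.1, hn.2.1, h3⟩, ?_,
        by simp [back, h5]⟩
      · rcases h1 with h1 | ⟨h0, h1⟩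
        · exact Or.inl (by simp [shape, opsAB, h1])
        · refine Or.inr ⟨h0, ?_⟩
          cases S with
          | nil => simp [flat] at hv
          | node _ _ _ => simpa [shape, opsCD, Tr.e] using h1
      · intro z hz
        simp only [flat, List.mem_append] at hz
        rcases hz with hz | hz | hz
        · exact l z (by simp [hz])
        · exact l z (by simp [hz])
        · exact h4 z hz

def gen : ℕ → ℕ → Fo → List LF
  | _, 0, F => if F.e then [.nil] else []
  | a, n + 1, F => (opsAB F ++ opsCD F).flatMap fun o => (gen (a + 1) n (res o F)).map (back a o)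

def Fill (a n : ℕ) (F : Fo) (T : LF) : Prop :=
  shape T = F ∧ NE T ∧ (flat T).Perm (List.range' a n) ∧ valid T []

lemma ok_iff {o : Op} {F : Fo} : o ∈ opsAB F ++ opsCD F ↔ OK o F [] := by simp [OK]

lemma Fill.lt {a n : ℕ} {F : Fo} {T : LF} (h : Fill (a + 1) n F T) : ∀ z ∈ flat T, a < z := by
  intro z hz
  have := List.mem_range'_1.1 (h.2.2.1.subset hz)
  omega

lemma mem_gen (n : ℕ) : ∀ (a : ℕ) (F : Fo) (T : LF), T ∈ gen a n F ↔ Fill a n F T := by
  induction n with
  | zero =>
    intro a F T
    constructor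
    · intro h
      cases F with
      | nil =>
        obtain rfl : T = .nil := by simpa [gen, Tr.e] using h
        exact ⟨rfl, trivial, by simp [flat], trivial⟩
      | node _ _ _ => simp [gen, Tr.e] at h
    · rintro ⟨rfl, h1, h2, -⟩
      obtain rfl := flat_nil h1 (by simpa using h2)
      simp [gen, shape, Tr.e]
  | succ n ih =>
    intro a F T
    simp only [gen, List.mem_flatMap, List.mem_map, ih, ok_iff]
    constructor
    · rintro ⟨o, ho, T', h, rfl⟩
      obtain ⟨i1, i2, i3, i4, -⟩ := back_spec a o F T' [] (fun _ => 0) ho h.1 h.2.1 h.lt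
      exact ⟨i1, i2, by rw [List.range'_succ]; exact i3.trans (h.2.2.1.cons _), i4.2 h.2.2.2⟩
    · rintro ⟨rfl, h1, h2, h3⟩
      obtain ⟨o, T', k1, k2, k3, k4, rfl⟩ := surj a T [] h1 h3
        (h2.symm.subset (by simp)) (h2.nodup_iff.2 List.nodup_range')
        (fun z hz => (List.mem_range'_1.1 (h2.subset hz)).1) (by simp)
      obtain ⟨-, -, i3, i4, -⟩ := back_spec a o _ T' [] (fun _ => 0) k1 k2 k3 k4
      refine ⟨o, k1, T', ⟨k2, k3, ?_, i4.1 h3⟩, rfl⟩
      rw [List.range'_succ] at h2
      exact (i3.symm.trans h2).cons_inv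

def Op.k : Op → Bool
  | .a => true
  | .b => true
  | .c => false
  | .d => false
  | .dn o => o.k
  | .nx o => o.k

lemma k_AB (F : Fo) : ∀ o ∈ opsAB F, o.k = true := by
  induction F with
  | nil => simp [opsAB]
  | node w K S ihK ihS =>
    intro o h
    simp only [opsAB, List.mem_cons, List.mem_append, List.mem_map] at h
    rcases h with rfl | rfl | ⟨o, h, rfl⟩ | ⟨o, h, rfl⟩
    exacts [rfl, rfl, ihK o h, ihS o h]

lemma k_CD (F : Fo) : ∀ o ∈ opsCD F, o.k = false := by
  induction F with
  | nil => simp [opsCD]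
  | node w K S ihK ihS =>
    intro o h
    simp only [opsCD] at h
    split_ifs at h
    · simp only [List.mem_cons, List.mem_map] at h
      rcases h with rfl | rfl | ⟨o, h, rfl⟩
      exacts [rfl, rfl, ihK o h]
    · obtain ⟨o, h', rfl⟩ := List.mem_map.1 h
      exact ihS o h'

lemma nd_AB (F : Fo) : (opsAB F).Nodup := by
  induction F with
  | nil => simp [opsAB]
  | node w K S ihK ihS =>
    simp only [opsAB, List.nodup_cons, List.nodup_append]
    refine ⟨by simp, by simp, ihK.map fun _ _ h => Op.dn.inj h, ihS.map fun _ _ h => Op.nx.inj h,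
      by simp⟩

lemma nd_CD (F : Fo) : (opsCD F).Nodup := by
  induction F with
  | nil => simp [opsCD]
  | node w K S ihK ihS =>
    simp only [opsCD]
    split_ifs
    · simp only [List.nodup_cons]
      exact ⟨by simp, by simp, ihK.map fun _ _ h => Op.dn.inj h⟩
    · exact ihS.map fun _ _ h => Op.nx.inj h

lemma nd_ops (F : Fo) : (opsAB F ++ opsCD F).Nodup := by
  refine List.nodup_append.2 ⟨nd_AB F, nd_CD F, fun x ha y hb e => ?_⟩
  have h1 := k_AB F x ha
  rw [e, k_CD F y hb] at h1
  exact Bool.noConfusion h1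

lemma nd_gen (n : ℕ) : ∀ (a : ℕ) (F : Fo), (gen a n F).Nodup := by
  induction n with
  | zero => intro a F; simp only [gen]; split_ifs <;> simp
  | succ n ih =>
    intro a F
    have key : ∀ o ∈ opsAB F ++ opsCD F, ∀ T ∈ gen (a + 1) n (res o F),
        fwd a (back a o T) = (o, T) := by
      intro o ho T hT
      have h := (mem_gen _ _ _ _).1 hT
      exact (back_spec a o F T [] (fun _ => 0) (ok_iff.1 ho) h.1 h.2.1 h.lt).2.2.2.2.2
    rw [gen, List.nodup_flatMap]
    refine ⟨fun o ho => (ih _ _).map_on fun T hT T' hT' e => ?_, ?_⟩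
    · have h1 := key o ho T hT
      rw [e, key o ho T' hT'] at h1
      exact (Prod.mk.inj h1).2.symm
    · refine (nd_ops F).imp_of_mem fun {o o'} ho ho' hne T h1 h2 => hne ?_
      obtain ⟨T1, k1, e1⟩ := List.mem_map.1 h1
      obtain ⟨T2, k2, e2⟩ := List.mem_map.1 h2
      have u := key o ho T1 k1
      rw [e1, ← e2, key o' ho' T2 k2] at u
      exact (Prod.mk.inj u).1.symm

lemma sum_fm {α : Type} (l : List α) (f : α → List ℚ) :
    (l.flatMap f).sum = (l.map fun x => (f x).sum).sum := by
  induction l with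
  | nil => rfl
  | cons x l ih => simp [ih]

lemma sum_gen (n : ℕ) : ∀ (a : ℕ) (F : Fo) (g : ℕ → ℚ),
    ((gen a n F).map fun T => g (rm (lastw T))).sum = V n (phi F g) := by
  induction n with
  | zero => intro a F g; rw [V_zero]; simp only [gen]; split_ifs <;> simp [lastw, rm]
  | succ n ih =>
    intro a F g
    rw [V_step, gen, List.map_flatMap, sum_fm]
    congr 1
    refine List.map_congr_left fun o ho => ?_
    rw [← ih (a + 1), List.map_map]
    congr 1
    refine List.map_congr_left fun T hT => ?_
    have h := (mem_gen _ _ _ _).1 hT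
    exact (back_spec a o F T [] g (ok_iff.1 ho) h.1 h.2.1 h.lt).2.2.2.2.1

end Pool.Agent.H.MP_80f2b6_co
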