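import Pool.Agent.H.MP_80f2b6_co.Comb

namespace Pool.Agent.H.MP_80f2b6_co
open PowerSeries Finset

lemma V_mk (n : ℕ) (g : ℕ → ℚ) : V (n + 1) (PowerSeries.mk g) = V n (PowerSeries.mk fun j =>
    g (j + 1) + ∑ r ∈ range j, ((r : ℚ) + 1) * g (r + 1)) := by
  have h1 : V (n + 1) (PowerSeries.mk g) = V (n + 1) (Pg g) := by
    simp only [V, Pg]
    rw [sum_range_succ', sum_range_succ' _ (n + 1)]
    simp [cc, coeff_succ_X_mul]
  rw [h1, Pg, V_succ, ← V_add]
  congr 1
  ext j
  rw [map_add, coeff_del, sum_range_succ']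
  simp [coeff_succ_X_mul, add_comm]

lemma V_Pg (n : ℕ) (g : ℕ → ℚ) : V (n + 1) (Pg g) = V (n + 1) (PowerSeries.mk g) := by
  simp only [V, Pg]
  rw [sum_range_succ', sum_range_succ' _ (n + 1)]
  simp [cc, coeff_succ_X_mul]

def lifts : ℕ → List ℕ → List (List ℕ)
  | _, [] => [[]]
  | st, 0 :: f => (lifts (st + 1) f).map (1 :: ·) ++
      (if st < 2 then (lifts st f).map (0 :: ·) else [])
  | st, (x + 1) :: f => (lifts st f).map ((x + 2) :: ·)

def ok : ℕ → List ℕ → Prop
  | _, [] => True
  | st, 0 :: w => st < 2 ∧ ok st w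
  | st, 1 :: w => ok (st + 1) w
  | st, (_ + 2) :: w => ok st w

lemma mem_lifts (f : List ℕ) : ∀ (st : ℕ) (w : List ℕ),
    w ∈ lifts st f ↔ w.map Nat.pred = f ∧ ok st w := by
  induction f with
  | nil => intro st w; cases w <;> simp [lifts, ok]
  | cons x f ih =>
    intro st w
    rcases x with _ | x
    · rcases w with _ | ⟨_ | _ | y, w⟩ <;> by_cases h : st < 2 <;> simp [lifts, ok, ih, h]
    · rcases w with _ | ⟨_ | _ | y, w⟩ <;> simp [lifts, ok, ih]
      tauto

lemma nd_lifts (f : List ℕ) : ∀ st, (lifts st f).Nodup := by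
  induction f with
  | nil => intro st; simp [lifts]
  | cons x f ih =>
    intro st
    rcases x with _ | x
    · simp only [lifts]
      split_ifs
      · exact List.nodup_append.2 ⟨(ih _).map List.cons_injective, (ih _).map List.cons_injective,
          by simp⟩
      · simpa using (ih _).map List.cons_injective
    · exact (ih _).map List.cons_injective

noncomputable def SL (st : ℕ) (f : List ℕ) (g : ℕ → ℚ) : ℚ :=
  ((lifts st f).map fun w => g (w.count 0)).sum

lemma SL_zero (st : ℕ) (f : List ℕ) (g : ℕ → ℚ) : SL st (0 :: f) g =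
    SL (st + 1) f g + if st < 2 then SL st f fun k => g (k + 1) else 0 := by
  unfold SL
  split_ifs with h <;> simp [lifts, h, Function.comp_def]

lemma SL_succ (st x : ℕ) (f : List ℕ) (g : ℕ → ℚ) : SL st ((x + 1) :: f) g = SL st f g := by
  simp [SL, lifts, Function.comp_def]

lemma SL2 (f : List ℕ) (g : ℕ → ℚ) : ∀ st, SL (st + 2) f g = g 0 := by
  induction f with
  | nil => intro st; simp [SL, lifts]
  | cons x f ih =>
    intro st
    rcases x with _ | x
    · rw [SL_zero, if_neg (by omega), add_zero]; exact ih (st + 1)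
    · rw [SL_succ, ih]

lemma SL1 (f : List ℕ) : ∀ g : ℕ → ℚ, SL 1 f g = ∑ r ∈ range (f.count 0 + 1), g r := by
  induction f with
  | nil => intro g; simp [SL, lifts]
  | cons x f ih =>
    intro g
    rcases x with _ | x
    · rw [SL_zero, if_pos (by omega), SL2 f g 0, ih, List.count_cons_self, sum_range_succ' _ (_ + 1),
        add_comm]
    · rw [SL_succ, ih]; simp

lemma SL0 (f : List ℕ) : ∀ g : ℕ → ℚ,
    SL 0 f g = g (f.count 0) + ∑ r ∈ range (f.count 0), ((r : ℚ) + 1) * g r := by
  induction f with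
  | nil => intro g; simp [SL, lifts]
  | cons x f ih =>
    intro g
    rcases x with _ | x
    · rw [SL_zero, if_pos (by omega), SL1 f g, ih, List.count_cons_self]
      simp only [add_mul (_ : ℚ) 1, one_mul, sum_add_distrib]
      rw [sum_range_succ' fun r => (r : ℚ) * g r]
      simp only [Nat.cast_add, Nat.cast_one, add_mul (_ : ℚ) 1, one_mul, sum_add_distrib]
      simp
      ring
    · rw [SL_succ, ih]; simp

def A110 (w : List ℕ) : Prop := ∀ a b, b < a → ¬ [a, a, b].Sublist w

lemma ok2 (w : List ℕ) : ∀ st, ok (st + 2) w ↔ 0 ∉ w := by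
  induction w with
  | nil => simp [ok]
  | cons x w ih =>
    intro st
    rcases x with _ | _ | x
    · simp [ok]
    · simpa [ok] using ih (st + 1)
    · simpa [ok] using ih st

lemma ok1 (w : List ℕ) : ok 1 w ↔ ¬ [1, 0].Sublist w := by
  induction w with
  | nil => simp [ok]
  | cons x w ih =>
    rcases x with _ | _ | x
    · simp [ok, ih, List.cons_sublist_cons']
    · have : [1, 0].Sublist w → 0 ∈ w := fun h => h.subset (by simp)
      simp only [ok, ok2 w 0, List.cons_sublist_cons, List.singleton_sublist]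
    · simp [ok, ih, List.cons_sublist_cons']

lemma ok0 (w : List ℕ) : ok 0 w ↔ ¬ [1, 1, 0].Sublist w := by
  induction w with
  | nil => simp [ok]
  | cons x w ih =>
    rcases x with _ | _ | x
    · simp [ok, ih, List.cons_sublist_cons']
    · simp only [ok, zero_add, ok1 w, List.cons_sublist_cons]
    · simp [ok, ih, List.cons_sublist_cons']

lemma A110_iff (w : List ℕ) : A110 (0 :: w) ↔ A110 (w.map Nat.pred) ∧ ok 0 w := by
  rw [ok0]
  constructor
  · intro h
    refine ⟨fun a b hab hs => ?_, fun hs => h 1 0 one_pos (hs.cons _)⟩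
    obtain ⟨l, hl, e⟩ := List.sublist_map_iff.1 hs
    rcases l with _ | ⟨x, _ | ⟨y, _ | ⟨z, _ | _⟩⟩⟩ <;> simp at e
    obtain ⟨e1, e2, e3⟩ := e
    obtain rfl : x = y := by omega
    exact h x z (by omega) (hl.cons _)
  · rintro ⟨h1, h2⟩ a b hab hs
    have hs' : [a, a, b].Sublist w := by
      rcases List.cons_sublist_cons'.1 hs with h | h
      · exact h
      · omega
    by_cases ha : a = 1
    · obtain rfl : b = 0 := by omega
      subst ha
      exact h2 hs'
    · exact h1 (a - 1) (b - 1) (by omega) (hs'.map Nat.pred)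

def genI : ℕ → List (List ℕ)
  | 0 => [[]]
  | n + 1 => (genI n).flatMap fun f => (lifts 0 f).map (0 :: ·)

def IsInv (w : List ℕ) : Prop := ∀ i, w.getD i 0 ≤ i

lemma IsInv_iff (x : ℕ) (w : List ℕ) : IsInv (x :: w) ↔ x = 0 ∧ IsInv (w.map Nat.pred) := by
  have e : ∀ i, (w.map Nat.pred).getD i 0 = w.getD i 0 - 1 := fun i =>
    List.getD_map w 0 Nat.pred
  constructor
  · intro h
    refine ⟨by simpa using h 0, fun i => ?_⟩
    have := h (i + 1)
    rw [List.getD_cons_succ] at this
    rw [e]; omega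
  · rintro ⟨rfl, h⟩ i
    cases i with
    | zero => simp
    | succ i =>
      have := h i
      rw [e] at this
      rw [List.getD_cons_succ]; omega

lemma mem_genI (n : ℕ) : ∀ w, w ∈ genI n ↔ w.length = n ∧ IsInv w ∧ A110 w := by
  induction n with
  | zero =>
    intro w
    simp only [genI, List.mem_singleton, List.length_eq_zero_iff]
    exact ⟨fun h => ⟨h, by subst h; simp [IsInv], by subst h; simp [A110]⟩, fun h => h.1⟩
  | succ n ih =>
    intro w
    simp only [genI, List.mem_flatMap, List.mem_map, ih, mem_lifts]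
    constructor
    · rintro ⟨f, ⟨h1, h2, h3⟩, u, ⟨rfl, h4⟩, rfl⟩
      exact ⟨by simpa using h1, (IsInv_iff _ _).2 ⟨rfl, h2⟩, (A110_iff _).2 ⟨h3, h4⟩⟩
    · rintro ⟨h1, h2, h3⟩
      cases w with
      | nil => simp at h1
      | cons x u =>
        obtain ⟨rfl, h5⟩ := (IsInv_iff _ _).1 h2
        obtain ⟨h6, h4⟩ := (A110_iff _).1 h3
        exact ⟨u.map Nat.pred, ⟨by simpa using h1, h5, h6⟩, u, ⟨rfl, h4⟩, rfl⟩

lemma nd_genI (n : ℕ) : (genI n).Nodup := by
  induction n with
  | zero => simp [genI]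
  | succ n ih =>
    rw [genI, List.nodup_flatMap]
    refine ⟨fun f _ => (nd_lifts f 0).map List.cons_injective, ?_⟩
    refine ih.imp fun {f f'} hne T h1 h2 => hne ?_
    obtain ⟨T1, k1, e1⟩ := List.mem_map.1 h1
    obtain ⟨T2, k2, e2⟩ := List.mem_map.1 h2
    rw [← ((mem_lifts _ _ _).1 k1).1, ← ((mem_lifts _ _ _).1 k2).1,
      List.cons_injective (e1.trans e2.symm)]

lemma sum_genI (n : ℕ) : ∀ g : ℕ → ℚ,
    ((genI n).map fun w => g (w.count 0)).sum = V n (PowerSeries.mk g) := by
  induction n with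
  | zero => intro g; simp [genI, V, cc]
  | succ n ih =>
    intro g
    rw [V_mk, ← ih, genI, List.map_flatMap, sum_fm]
    congr 1
    refine List.map_congr_left fun f _ => ?_
    rw [← SL0 f fun k => g (k + 1)]
    simp [SL, Function.comp_def]

end Pool.Agent.H.MP_80f2b6_co
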