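import Pool.Agent.H.MP_80f2b6_co.Inv

namespace Pool.Agent.H.MP_80f2b6_co
open PowerSeries Finset

lemma card_len {α β : Type} (l : List β) (hl : l.Nodup) (φ : α → β) (hφ : Function.Injective φ)
    (P : α → Prop) (hP : ∀ b, b ∈ l ↔ ∃ a, P a ∧ φ a = b) : Nat.card {a // P a} = l.length := by
  classical
  rw [← List.toFinset_card_of_nodup hl, ← Set.ncard_coe_finset]
  have : (l.toFinset : Set β) = φ '' {a | P a} := by ext b; simp [hP]
  rw [this, Set.ncard_image_of_injective _ hφ]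
  rfl

lemma card_sum {α β : Type} (l : List β) (hl : l.Nodup) (φ : α → β) (hφ : Function.Injective φ)
    (P : α → Prop) (hP : ∀ b, b ∈ l ↔ ∃ a, P a ∧ φ a = b) (r : α → ℕ) (s : β → ℕ)
    (hs : ∀ a, r a = s (φ a)) (k : ℕ) : (Nat.card {a // P a ∧ r a = k} : ℚ) =
      (l.map fun b => if s b = k then (1 : ℚ) else 0).sum := by
  rw [card_len (l.filter fun b => s b = k) (hl.filter _) φ hφ _ (fun b => by
    simp only [List.mem_filter, hP, decide_eq_true_eq, hs]
    exact ⟨fun ⟨⟨a, h1, h2⟩, h3⟩ => ⟨a, ⟨h1, h2 ▸ h3⟩, h2⟩,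
      fun ⟨a, ⟨h1, h3⟩, h2⟩ => ⟨⟨a, h1, h2⟩, h2 ▸ h3⟩⟩)]
  clear hP hl
  induction l with
  | nil => simp
  | cons x l ih => by_cases h : s x = k <;> simp [List.filter_cons, h, ← ih, add_comm]

lemma Le_iff (q : List ℕ) (y : ℕ) : Le q y ↔ ∀ l, l < q.length → q.getD l 0 ≤ y := by
  induction q with
  | nil => simp [Le]
  | cons c q ih =>
    rw [Le_cons, ih]
    refine ⟨fun h l hl => ?_, fun h => ⟨h 0 (by simp), fun l hl => h (l + 1) (by simpa using hl)⟩⟩
    cases l with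
    | zero => exact h.1
    | succ l => exact h.2 l (by simpa using hl)

lemma In_iff (x y : ℕ) (q : List ℕ) : In x y q ↔
    ∀ j l, j < l → l < q.length → q.getD j 0 < x → q.getD l 0 ≤ y := by
  induction q with
  | nil => simp [In]
  | cons c q ih =>
    rw [In, ih, Le_iff]
    refine ⟨fun h j l h1 h2 h3 => ?_, fun h => ⟨fun hc l hl => h 0 (l + 1) (by omega)
      (by simpa using hl) hc, fun j l h1 h2 h3 => h (j + 1) (l + 1) (by omega)
      (by simpa using h2) h3⟩⟩
    obtain ⟨l, rfl⟩ : ∃ m, l = m + 1 := ⟨l - 1, by omega⟩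
    cases j with
    | zero => exact h.1 h3 l (by simpa using h2)
    | succ j => exact h.2 j l (by omega) (by simpa using h2) h3

lemma Av_iff (w : List ℕ) : Av w [] ↔ ∀ i j l, i + 1 < j → j < l → l < w.length →
    w.getD j 0 < w.getD i 0 → w.getD i 0 < w.getD (i + 1) 0 → w.getD l 0 ≤ w.getD (i + 1) 0 := by
  induction w with
  | nil => simp [Av]
  | cons x w ih =>
    cases w with
    | nil =>
      simp only [Av, true_iff]
      intro i j l h1 h2 h3
      simp at h3; omega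
    | cons y q =>
      rw [Av, ih, In_iff]
      refine ⟨fun h i j l h1 h2 h3 h4 h5 => ?_, fun h => ⟨fun hc => ⟨Le_nil, fun j l h1 h2 h3 =>
        h 0 (j + 2) (l + 2) (by omega) (by omega) (by simpa using h2) h3 hc⟩,
        fun i j l h1 h2 h3 h4 h5 => h (i + 1) (j + 1) (l + 1) (by omega) (by omega)
          (by simpa using h3) h4 h5⟩⟩
      obtain ⟨l, rfl⟩ : ∃ m, l = m + 2 := ⟨l - 2, by omega⟩
      obtain ⟨j, rfl⟩ : ∃ m, j = m + 2 := ⟨j - 2, by omega⟩
      cases i with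
      | zero => exact (h.1 h5).2 j l (by omega) (by simpa using h3) h4
      | succ i => exact h.2 i (j + 1) (l + 1) (by omega) (by omega) (by simpa using h3) h4 h5

open Classical in
lemma rm_eq (w : List ℕ) : rm w = #((range w.length).filter fun i =>
    ∀ j, i < j → j < w.length → w.getD i 0 < w.getD j 0) := by
  induction w with
  | nil => simp [rm]
  | cons x w ih =>
    rw [rm, ih, card_filter, card_filter, List.length_cons, sum_range_succ']
    congr 1
    · refine sum_congr rfl fun i _ => if_congr ⟨fun h j h1 h2 => ?_, fun h j h1 h2 =>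
        h (j + 1) (by omega) (by omega)⟩ rfl rfl
      obtain ⟨j, rfl⟩ : ∃ m, j = m + 1 := ⟨j - 1, by omega⟩
      exact h j (by omega) (by omega)
    · refine if_congr ⟨fun h j h1 h2 => ?_, fun h y hy => ?_⟩ rfl rfl
      · obtain ⟨j, rfl⟩ : ∃ m, j = m + 1 := ⟨j - 1, by omega⟩
        rw [List.getD_cons_succ, List.getD_eq_getElem _ _ (by omega : j < w.length)]
        exact h _ (List.getElem_mem _)
      · obtain ⟨j, hj, rfl⟩ := List.getElem_of_mem hy
        have := h (j + 1) (by omega) (by omega)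
        rwa [List.getD_cons_succ, List.getD_eq_getElem _ _ hj] at this

lemma count_eq (w : List ℕ) : w.count 0 = #((range w.length).filter fun i => w.getD i 0 = 0) := by
  induction w with
  | nil => simp
  | cons x w ih =>
    rw [List.count_cons, ih, card_filter, card_filter, List.length_cons, sum_range_succ']
    simp

lemma cons_sub (a : ℕ) (t w : List ℕ) : (a :: t).Sublist w ↔
    ∃ i, i < w.length ∧ w.getD i 0 = a ∧ t.Sublist (w.drop (i + 1)) := by
  induction w with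
  | nil => simp
  | cons x w ih =>
    rw [List.cons_sublist_cons', ih]
    constructor
    · rintro (⟨i, h⟩ | ⟨rfl, h⟩)
      · exact ⟨i + 1, by simpa using h⟩
      · exact ⟨0, by simpa using h⟩
    · rintro ⟨_ | i, h⟩
      · exact Or.inr ⟨h.2.1.symm, h.2.2⟩
      · exact Or.inl ⟨i, by simpa using h⟩

lemma getD_drop (w : List ℕ) (m i : ℕ) : (w.drop m).getD i 0 = w.getD (m + i) 0 := by
  simp [List.getD_eq_getElem?_getD]

lemma A110_idx (w : List ℕ) : A110 w ↔ ¬ ∃ i j l, i < j ∧ j < l ∧ l < w.length ∧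
    w.getD i 0 = w.getD j 0 ∧ w.getD l 0 < w.getD j 0 := by
  simp only [A110, cons_sub, getD_drop, List.length_drop, List.nil_sublist, List.drop_drop]
  constructor
  · rintro h ⟨i, j, l, h1, h2, h3, h4, h5⟩
    refine h _ _ h5 ⟨i, by omega, h4, j - (i + 1), by omega, by congr 1; omega,
      l - (j + 1), by omega, by congr 1; omega, trivial⟩
  · rintro h a b hab ⟨i, h1, h2, j, h3, h4, l, h5, h6, -⟩
    exact h ⟨i, i + 1 + j, i + 1 + (j + 1) + l, by omega, by omega, by omega, h2.trans h4.symm,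
      by rw [h6, h4]; exact hab⟩

def lst {n : ℕ} (σ : Fin n → Fin n) : List ℕ := List.ofFn fun i => (σ i : ℕ)

lemma lst_len {n : ℕ} (σ : Fin n → Fin n) : (lst σ).length = n := by simp [lst]

lemma lst_getD {n : ℕ} (σ : Fin n → Fin n) (i : ℕ) (hi : i < n) :
    (lst σ).getD i 0 = σ ⟨i, hi⟩ := by
  unfold lst
  rw [List.getD_eq_getElem _ _ (by simpa using hi)]
  simp

lemma lst_inj {n : ℕ} : Function.Injective (lst (n := n)) := fun _ _ h =>
  funext fun i => Fin.ext (congrFun (List.ofFn_injective h) i)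

lemma lst_surj {n : ℕ} (w : List ℕ) (h : w.length = n) (h2 : ∀ i, i < n → w.getD i 0 < n) :
    ∃ σ : Fin n → Fin n, lst σ = w := by
  refine ⟨fun i => ⟨w.getD i 0, h2 i i.2⟩, List.ext_getElem (by simp [lst, h]) fun i h1 h2 => ?_⟩
  simp [lst, h2]

lemma card_fin {n : ℕ} (P : Fin n → Prop) (Q : ℕ → Prop) [DecidablePred Q]
    (h : ∀ i : Fin n, P i ↔ Q i) : Nat.card {i // P i} = #((range n).filter Q) := by
  rw [card_len ((List.range n).filter Q) (List.nodup_range.filter _) Fin.val Fin.val_injective P]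
  · rfl
  · intro b
    simp only [List.mem_filter, List.mem_range, decide_eq_true_eq, h]
    exact ⟨fun ⟨h1, h2⟩ => ⟨⟨b, h1⟩, h2, rfl⟩, fun ⟨a, h1, h2⟩ => h2 ▸ ⟨a.2, h1⟩⟩

def Avoid {n : ℕ} (π : Equiv.Perm (Fin n)) : Prop :=
  ¬ ∃ i i' j l : Fin n, i'.val = i.val + 1 ∧ i' < j ∧ j < l ∧
    π j < π i ∧ π i < π i' ∧ π i' < π l

lemma avoid_iff {n : ℕ} (π : Equiv.Perm (Fin n)) : Avoid π ↔ Av (lst π) [] := by
  rw [Av_iff, lst_len]
  constructor
  · intro h i j l h1 h2 h3 h4 h5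
    rw [lst_getD _ i (by omega), lst_getD _ (i + 1) (by omega)] at *
    rw [lst_getD _ j (by omega)] at h4
    rw [lst_getD _ l h3]
    by_contra hc
    exact h ⟨⟨i, by omega⟩, ⟨i + 1, by omega⟩, ⟨j, by omega⟩, ⟨l, h3⟩, rfl, h1, h2, h4, h5,
      not_le.1 hc⟩
  · rintro h ⟨i, ⟨i', hi'⟩, j, l, h1, h2, h3, h4, h5, h6⟩
    obtain rfl : i' = i + 1 := h1
    have := h i j l h2 h3 l.2
    rw [lst_getD _ _ i.2, lst_getD _ _ j.2, lst_getD _ _ l.2, lst_getD _ _ hi'] at this
    exact absurd (this h4 h5) (not_le.2 h6)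

lemma perm_iff {n : ℕ} (w : List ℕ) :
    w.Perm (List.range' 0 n) ↔ ∃ π : Equiv.Perm (Fin n), lst π = w := by
  rw [← List.range_eq_range']
  constructor
  · intro h
    have hl : w.length = n := by simpa using h.length_eq
    obtain ⟨σ, rfl⟩ := lst_surj w hl fun i hi => List.mem_range.1 (h.subset (by
      rw [List.getD_eq_getElem _ _ (by omega)]; exact List.getElem_mem _))
    have hn := List.nodup_ofFn.1 (h.nodup_iff.2 List.nodup_range)
    exact ⟨Equiv.ofBijective σ (Finite.injective_iff_bijective.1 fun i j e =>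
      hn (congrArg Fin.val e)), rfl⟩
  · rintro ⟨π, rfl⟩
    have hn : (lst π).Nodup := List.nodup_ofFn.2 fun i j e => π.injective (Fin.ext e)
    rw [List.perm_ext_iff_of_nodup hn List.nodup_range]
    intro a
    simp only [lst, List.mem_ofFn, List.mem_range]
    exact ⟨fun ⟨i, e⟩ => e ▸ (π i).2, fun ha => ⟨π.symm ⟨a, ha⟩, by simp⟩⟩

def F1 : Fo := .node () .nil .nil

lemma mem_gen1 (n : ℕ) (T : LF) : T ∈ gen 0 (n + 1) F1 ↔
    ∃ π : Equiv.Perm (Fin (n + 1)), Avoid π ∧ Tr.node (lst π) .nil .nil = T := by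
  rw [mem_gen]
  constructor
  · rintro ⟨h1, h2, h3, h4⟩
    obtain ⟨w, K, S, rfl, k1, k2⟩ := shape_node h1
    obtain rfl := shape_nil k1
    obtain rfl := shape_nil k2
    obtain ⟨π, rfl⟩ := (perm_iff (n := n + 1) w).1 (by simpa [flat] using h3)
    exact ⟨π, (avoid_iff π).2 h4.2.1, rfl⟩
  · rintro ⟨π, h, rfl⟩
    refine ⟨rfl, ⟨fun e => ?_, trivial, trivial⟩, by simpa [flat] using (perm_iff _).2 ⟨π, rfl⟩,
      ?_, (avoid_iff π).1 h, trivial, trivial⟩
    · have := lst_len π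
      simp [e] at this
    · cases lst π <;> simp [Hd, flat, Le_nil]

lemma node_inj {n : ℕ} : Function.Injective
    fun π : Equiv.Perm (Fin n) => (Tr.node (lst π) .nil .nil : LF) := fun _ _ h =>
  DFunLike.coe_injective (lst_inj (Tr.node.inj h).1)

lemma perm_card (n k : ℕ) : (Nat.card {π : Equiv.Perm (Fin (n + 1)) // Avoid π ∧
    Nat.card {i : Fin (n + 1) // ∀ j, i < j → π i < π j} = k} : ℚ) =
      V (n + 1) (PowerSeries.mk fun j => if j = k then 1 else 0) := by
  classical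
  rw [card_sum _ (nd_gen (n + 1) 0 F1) _ node_inj _ (mem_gen1 n) _ (fun T => rm (lastw T)),
    sum_gen (n + 1) 0 F1 fun j => if j = k then 1 else 0, ← V_Pg]
  · rfl
  · intro π
    change _ = rm (lst π)
    rw [rm_eq, lst_len]
    refine card_fin _ _ fun i => ⟨fun h j h1 h2 => ?_, fun h j h1 => ?_⟩
    · rw [lst_getD _ _ i.2, lst_getD _ _ h2]; exact h ⟨j, h2⟩ h1
    · have := h j h1 j.2
      rwa [lst_getD _ _ i.2, lst_getD _ _ j.2] at this

lemma perm_total (n : ℕ) : (Nat.card {π : Equiv.Perm (Fin (n + 1)) // Avoid π} : ℚ) =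
    V (n + 1) (PowerSeries.mk fun _ => 1) := by
  rw [card_len _ (nd_gen (n + 1) 0 F1) _ node_inj _ (mem_gen1 n), ← V_Pg]
  have := sum_gen (n + 1) 0 F1 fun _ => 1
  simpa [F1, phi, Tr.e] using this

lemma inv_card (n k : ℕ) : (Nat.card {e : Fin n → Fin n // (∀ i : Fin n, (e i).val ≤ i.val) ∧
    (¬ ∃ i j l : Fin n, i < j ∧ j < l ∧ e i = e j ∧ e l < e j) ∧
      Nat.card {i : Fin n // (e i).val = 0} = k} : ℚ) =
      V n (PowerSeries.mk fun j => if j = k then 1 else 0) := by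
  simp only [← and_assoc]
  have h1 : ∀ e : Fin n → Fin n, IsInv (lst e) ↔ ∀ i : Fin n, (e i).val ≤ i.val := by
    intro e
    refine ⟨fun h i => by have := h i; rwa [lst_getD _ _ i.2] at this, fun h i => ?_⟩
    by_cases hi : i < n
    · rw [lst_getD _ _ hi]; exact h _
    · rw [List.getD_eq_default _ _ (by rw [lst_len]; omega)]; omega
  have h2 : ∀ e : Fin n → Fin n, A110 (lst e) ↔
      ¬ ∃ i j l : Fin n, (i < j ∧ j < l) ∧ e i = e j ∧ e l < e j := by
    intro e
    rw [A110_idx, lst_len]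
    refine not_congr ⟨fun ⟨i, j, l, h1, h2, h3, h4, h5⟩ => ?_, fun ⟨i, j, l, h1, h4, h5⟩ => ?_⟩
    · rw [lst_getD _ j (by omega)] at h4 h5
      rw [lst_getD _ i (by omega)] at h4
      rw [lst_getD _ l h3] at h5
      exact ⟨⟨i, by omega⟩, ⟨j, by omega⟩, ⟨l, h3⟩, ⟨h1, h2⟩, Fin.ext h4, h5⟩
    · refine ⟨i, j, l, h1.1, h1.2, l.2, ?_, ?_⟩
      · rw [lst_getD _ _ i.2, lst_getD _ _ j.2]; exact congrArg Fin.val h4
      · rw [lst_getD _ _ l.2, lst_getD _ _ j.2]; exact h5
  simp only [← and_assoc] at h2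
  rw [card_sum _ (nd_genI n) lst lst_inj _ _ _ (fun w => w.count 0),
    sum_genI n fun j => if j = k then 1 else 0]
  · intro e
    rw [count_eq, lst_len]
    exact card_fin _ _ fun i => by rw [lst_getD _ _ i.2]
  · intro w
    rw [mem_genI]
    constructor
    · rintro ⟨a, b, c⟩
      obtain ⟨e, rfl⟩ := lst_surj w a fun i hi => lt_of_le_of_lt (b i) hi
      exact ⟨e, ⟨(h1 e).1 b, (h2 e).1 c⟩, rfl⟩
    · rintro ⟨e, ⟨a, b⟩, rfl⟩
      exact ⟨lst_len e, (h1 e).2 a, (h2 e).2 b⟩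

theorem main (n : ℕ) (hn : 1 ≤ n) (k : ℕ) :
    Nat.card {π : Equiv.Perm (Fin n) // Avoid π ∧
      Nat.card {i : Fin n // ∀ j, i < j → π i < π j} = k} =
    Nat.card {e : Fin n → Fin n // (∀ i : Fin n, (e i).val ≤ i.val) ∧
      (¬ ∃ i j l : Fin n, i < j ∧ j < l ∧ e i = e j ∧ e l < e j) ∧
      Nat.card {i : Fin n // (e i).val = 0} = k} := by
  obtain ⟨n, rfl⟩ : ∃ m, n = m + 1 := ⟨n - 1, by omega⟩
  exact_mod_cast (perm_card n k).trans (inv_card (n + 1) k).symm

end Pool.Agent.H.MP_80f2b6_co
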